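import Pool.Agent.MP_7c51ae_co.Main
import Pool.Agent.MP_7c51ae_co.K
import Pool.Agent.MP_7c51ae_co.Sound
import Pool.Agent.MP_7c51ae_co.DR0
import Pool.Agent.MP_7c51ae_co.DR1
import Pool.Agent.MP_7c51ae_co.DR2
import Pool.Agent.MP_7c51ae_co.DRJ

/-!
Every finite graph of maximum degree at most three and large enough girth has a homomorphism to
the projective cube `PC 7`.
-/

set_option autoImplicit false

namespace Pool.Agent.Results.MP_7c51ae_co.PC7

open Pool.Agent.MP_7c51ae_co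

theorem result :
    ∃ g : ℕ, ∀ (V : Type) [Fintype V] (G : SimpleGraph V) [DecidableRel G.Adj],
      (∀ v, G.degree v ≤ 3) → (g : ℕ∞) ≤ G.egirth → Nonempty (G →g PC 7) :=
  of_core (fin_core sys_ok lump (abs_out sys_ok
    (cert_of runJ.1.1 runJ.1.2.1 runJ.1.2.2.1 runJ.1.2.2.2 rfl rfl rfl run0 run1 run2
      ((al_iff _ _).1 runJ.2.1) ((al_iff _ _).1 runJ.2.2.1) runJ.2.2.2)))

end Pool.Agent.Results.MP_7c51ae_co.PC7
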